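import Pool.Agent.H99.SQ.Defs

set_option autoImplicit false

namespace Pool.Agent.H58.SQ.BB

open Finset Filter Topology Pool.Agent.H99.SQ

theorem mem_FF {Y p : ℕ} : p ∈ FF Y ↔ p ≤ Y ∧ p.Prime ∧ p ≠ 2 := by
  simp only [FF, Finset.mem_filter, Finset.mem_range, Nat.lt_succ_iff]

theorem OP_of_mem {Y p : ℕ} (h : p ∈ FF Y) : OP p := (mem_FF.1 h).2

theorem sq_dvd_QQ {Y p : ℕ} (h : p ∈ FF Y) : p ^ 2 ∣ QQ (FF Y) :=
  Finset.dvd_prod_of_mem (fun p => p ^ 2) h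

theorem QQ_pos (Y : ℕ) : 0 < QQ (FF Y) :=
  Finset.prod_pos fun _ hp => pow_pos (mem_FF.1 hp).2.1.pos 2

theorem QQ_coprime {Y p : ℕ} (hp : p.Prime) (h : Y < p) : Nat.Coprime (QQ (FF Y)) (p ^ 2) := by
  unfold QQ
  refine Nat.Coprime.prod_left fun q hq => ?_
  have hq' := mem_FF.1 hq
  refine Nat.Coprime.pow 2 2 ?_
  rw [Nat.coprime_primes hq'.2.1 hp]
  rintro rfl
  exact absurd hq'.1 (by omega)

/-- the period of the exponents -/
def MM (Y : ℕ) : ℕ := ∏ p ∈ FF Y, p * (p - 1)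

theorem MM_pos (Y : ℕ) : 0 < MM Y :=
  Finset.prod_pos fun p hp => by
    have h := (mem_FF.1 hp).2.1.two_le
    exact Nat.mul_pos (by omega) (by omega)

theorem MM_le (Y : ℕ) : MM Y ≤ QQ (FF Y) :=
  Finset.prod_le_prod' fun p _ => by
    rw [pow_two]
    exact Nat.mul_le_mul_left p (by omega)

theorem dvd_MM {Y p : ℕ} (h : p ∈ FF Y) : p * (p - 1) ∣ MM Y :=
  Finset.dvd_prod_of_mem (fun p => p * (p - 1)) h

theorem rr_finite (n : ℕ) : (RR n).Finite := by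
  refine (Set.finite_Iio n).subset ?_
  rintro l ⟨hl, _⟩
  exact lt_trans Nat.lt_two_pow_self hl

theorem pf_BB (h1 : T_ORD) (h2 : T_SEM) (h3 : T_PP) : T_BB := by
  classical
  intro Y x A hY hA
  obtain ⟨_, s2, s3, _⟩ := h2
  set Q := QQ (FF Y) with hQ
  have hQpos : 0 < Q := QQ_pos Y
  -- the exponents
  have hex : ∀ n ∈ A, ∃ l, 1 ≤ l ∧ l < 2 * Q ∧ ∀ p ∈ FF Y, ¬ Kill p n l := by
    intro n hn
    obtain ⟨_, _, hcov⟩ := hA n hn
    unfold Cov at hcov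
    push Not at hcov
    obtain ⟨l0, hl0⟩ := hcov
    have hM := MM_pos Y
    have hMQ := MM_le Y
    have hlt : l0 % MM Y < MM Y := Nat.mod_lt _ hM
    refine ⟨l0 % MM Y + MM Y, by omega, by omega, ?_⟩
    intro p hp hk
    refine hl0 p hp ?_
    have ho := h1 p (OP_of_mem hp)
    have hmod : l0 ≡ l0 % MM Y + MM Y [MOD mm p] := by
      have hd : mm p ∣ MM Y := ho.2.2.1.trans (dvd_MM hp)
      have e1 : l0 ≡ l0 % MM Y + MM Y [MOD MM Y] := by
        unfold Nat.ModEq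
        rw [Nat.add_mod_right, Nat.mod_mod]
      exact e1.of_dvd hd
    have e2 := (ho.2.2.2.1 l0 (l0 % MM Y + MM Y)).2 hmod
    unfold Kill at hk ⊢
    rw [hk, e2]
  have hexr : ∀ r : ℕ, ∃ l : ℕ, (∃ n ∈ A, n % Q = r) →
      1 ≤ l ∧ l < 2 * Q ∧ ∀ p ∈ FF Y, ∀ n, n % Q = r → ¬ Kill p n l := by
    intro r
    by_cases hr : ∃ n ∈ A, n % Q = r
    · obtain ⟨n, hn, hnr⟩ := hr
      obtain ⟨l, a1, a2, a3⟩ := hex n hn
      refine ⟨l, fun _ => ⟨a1, a2, ?_⟩⟩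
      intro p hp n' hn' hk
      refine a3 p hp ?_
      have hmod : n' ≡ n [MOD p ^ 2] := by
        have e1 : n' ≡ n [MOD Q] := by
          unfold Nat.ModEq
          rw [hn', hnr]
        exact e1.of_dvd (sq_dvd_QQ hp)
      exact (s2 p n' n l hmod).1 hk
    · exact ⟨0, fun h => absurd h hr⟩
  choose L hL using hexr
  set P : Finset ℕ := (Finset.Ioc Y (Nat.sqrt x)).filter Nat.Prime with hP
  have hsub : A ⊆ Finset.range (2 ^ (2 * Q) + 1) ∪ (Finset.range Q ×ˢ P).biUnion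
      (fun t => A.filter fun n => n ≡ t.1 [MOD Q] ∧ n ≡ 2 ^ L t.1 [MOD t.2 ^ 2]) := by
    intro n hn
    rw [Finset.mem_union]
    by_cases hbig : n ≤ 2 ^ (2 * Q)
    · left
      exact Finset.mem_range.2 (by omega)
    · right
      push Not at hbig
      obtain ⟨hnx, ⟨hodd, hn1, hrep⟩, _⟩ := hA n hn
      have hRR : RR n = ∅ := (Set.ncard_eq_zero (rr_finite n)).1 hrep
      obtain ⟨b1, b2, b3⟩ := hL (n % Q) ⟨n, hn, rfl⟩
      have hlt : 2 ^ L (n % Q) < n :=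
        lt_of_le_of_lt (Nat.pow_le_pow_right (by norm_num) b2.le) hbig
      obtain ⟨p, hp, hpn, hk⟩ := s3 n (L (n % Q)) hodd b1 hlt (by rw [hRR]; exact fun h => h)
      have hpY : Y < p := by
        by_contra hcon
        push Not at hcon
        exact b3 p (mem_FF.2 ⟨hcon, hp⟩) n rfl hk
      rw [Finset.mem_biUnion]
      refine ⟨(n % Q, p), ?_, ?_⟩
      · rw [Finset.mem_product]
        refine ⟨Finset.mem_range.2 (Nat.mod_lt _ hQpos), ?_⟩
        rw [hP, Finset.mem_filter, Finset.mem_Ioc]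
        refine ⟨⟨hpY, ?_⟩, hp.1⟩
        show p ≤ Nat.sqrt x
        rw [Nat.le_sqrt, ← pow_two]
        exact hpn.trans hnx
      · rw [Finset.mem_filter]
        refine ⟨hn, (Nat.mod_modEq n Q).symm, ?_⟩
        show n ≡ 2 ^ L (n % Q) [MOD p ^ 2]
        rw [← ZMod.natCast_eq_natCast_iff]
        unfold Kill at hk
        rw [hk]
        push_cast
        rfl
  have hc1 : (A.card : ℝ) ≤ (2 ^ (2 * Q) + 1 : ℝ) + ∑ t ∈ Finset.range Q ×ˢ P,
      ((x : ℝ) / (Q * (t.2 : ℝ) ^ 2) + 1) := by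
    have e1 : A.card ≤ (2 ^ (2 * Q) + 1) + ∑ t ∈ Finset.range Q ×ˢ P,
        (A.filter fun n => n ≡ t.1 [MOD Q] ∧ n ≡ 2 ^ L t.1 [MOD t.2 ^ 2]).card := by
      refine (Finset.card_le_card hsub).trans ((Finset.card_union_le _ _).trans ?_)
      rw [Finset.card_range]
      exact Nat.add_le_add_left Finset.card_biUnion_le _
    have e2 : (A.card : ℝ) ≤ (2 ^ (2 * Q) + 1 : ℝ) + ∑ t ∈ Finset.range Q ×ˢ P,
        ((A.filter fun n => n ≡ t.1 [MOD Q] ∧ n ≡ 2 ^ L t.1 [MOD t.2 ^ 2]).card : ℝ) := by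
      exact_mod_cast e1
    refine e2.trans (add_le_add le_rfl (Finset.sum_le_sum fun t ht => ?_))
    rw [Finset.mem_product, hP, Finset.mem_filter, Finset.mem_Ioc] at ht
    have hcop := QQ_coprime (Y := Y) ht.2.2 ht.2.1.1
    have := h3 x Q (t.2 ^ 2) t.1 (2 ^ L t.1) (A.filter fun n => n ≡ t.1 [MOD Q] ∧
      n ≡ 2 ^ L t.1 [MOD t.2 ^ 2]) hQpos (pow_pos ht.2.2.pos 2) hcop (by
        intro n hn
        rw [Finset.mem_filter] at hn
        exact ⟨(hA n hn.1).1, hn.2⟩)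
    push_cast at this
    exact this
  have hQr : (0 : ℝ) < Q := by exact_mod_cast hQpos
  have hYr : (0 : ℝ) < Y := by exact_mod_cast hY
  have hx0 : (0 : ℝ) ≤ x := Nat.cast_nonneg x
  have hsum : ∑ t ∈ Finset.range Q ×ˢ P, ((x : ℝ) / (Q * (t.2 : ℝ) ^ 2) + 1) =
      x * ∑ p ∈ P, ((p : ℝ) ^ 2)⁻¹ + Q * P.card := by
    rw [Finset.sum_product]
    simp only [Finset.sum_const, Finset.card_range, nsmul_eq_mul, Finset.sum_add_distrib]
    rw [mul_add, Finset.mul_sum, Finset.mul_sum]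
    congr 1
    · refine Finset.sum_congr rfl fun p _ => ?_
      field_simp
    · ring
  have hPs : ∑ p ∈ P, ((p : ℝ) ^ 2)⁻¹ ≤ 1 / Y := by
    rcases le_total Y (Nat.sqrt x) with hle | hle
    · calc ∑ p ∈ P, ((p : ℝ) ^ 2)⁻¹ ≤ ∑ p ∈ Finset.Ioc Y (Nat.sqrt x), ((p : ℝ) ^ 2)⁻¹ :=
            Finset.sum_le_sum_of_subset_of_nonneg (Finset.filter_subset _ _)
              fun _ _ _ => by positivity
        _ ≤ (Y : ℝ)⁻¹ - (Nat.sqrt x : ℝ)⁻¹ := sum_Ioc_inv_sq_le_sub (by omega) hle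
        _ ≤ 1 / Y := by
            have : (0 : ℝ) ≤ (Nat.sqrt x : ℝ)⁻¹ := by positivity
            rw [one_div]
            linarith
    · have : P = ∅ := by
        rw [hP, Finset.Ioc_eq_empty (by omega), Finset.filter_empty]
      rw [this, Finset.sum_empty]
      positivity
  have hPc : (P.card : ℝ) ≤ Real.sqrt x := by
    have e1 : P.card ≤ Nat.sqrt x := by
      refine (Finset.card_filter_le _ _).trans ?_
      rw [Nat.card_Ioc]
      omega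
    have e2 : (P.card : ℝ) ≤ (Nat.sqrt x : ℝ) := by exact_mod_cast e1
    exact e2.trans Real.nat_sqrt_le_real_sqrt
  rw [hsum] at hc1
  have f1 : (x : ℝ) * ∑ p ∈ P, ((p : ℝ) ^ 2)⁻¹ ≤ x / Y := by
    calc (x : ℝ) * ∑ p ∈ P, ((p : ℝ) ^ 2)⁻¹ ≤ x * (1 / Y) := mul_le_mul_of_nonneg_left hPs hx0
      _ = x / Y := by ring
  have f2 : (Q : ℝ) * P.card ≤ Q * Real.sqrt x := mul_le_mul_of_nonneg_left hPc hQr.le
  linarith

end Pool.Agent.H58.SQ.BB
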