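import Pool.Agent.H99.SQ.Defs

set_option autoImplicit false

namespace Pool.Agent.H58.SQ.TC

open Finset Filter Topology Pool.Agent.H99.SQ

theorem OP_FF {Y p : ℕ} (h : p ∈ FF Y) : OP p := by
  simp only [FF, Finset.mem_filter] at h
  exact h.2

theorem log_sq_le (x : ℝ) (hx : 1 ≤ x) : Real.log x ^ 2 ≤ 16 * Real.sqrt x := by
  have hx0 : 0 ≤ x := by linarith
  have h0 : 0 ≤ Real.log x := Real.log_nonneg hx
  have e1 : Real.log x = 4 * Real.log (Real.sqrt (Real.sqrt x)) := by
    rw [Real.log_sqrt (Real.sqrt_nonneg x), Real.log_sqrt hx0]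
    ring
  have hpos : 0 < Real.sqrt (Real.sqrt x) := Real.sqrt_pos.2 (Real.sqrt_pos.2 (by linarith))
  have e2 : Real.log x ≤ 4 * Real.sqrt (Real.sqrt x) := by
    rw [e1]
    have := Real.log_le_sub_one_of_pos hpos
    linarith
  calc Real.log x ^ 2 ≤ (4 * Real.sqrt (Real.sqrt x)) ^ 2 := pow_le_pow_left₀ h0 e2 2
    _ = 16 * Real.sqrt (Real.sqrt x) ^ 2 := by ring
    _ = 16 * Real.sqrt x := by rw [Real.sq_sqrt (Real.sqrt_nonneg x)]

theorem pf_TC (h1 : T_BB) (h2 : T_QB) : T_TC := by
  refine ⟨64, fun x hx A hA => ?_⟩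
  have hxr : (3 : ℝ) ≤ x := by exact_mod_cast hx
  have hx0 : (0 : ℝ) < x := by linarith
  have hlog1 : 1 < Real.log x := by
    rw [Real.lt_log_iff_exp_lt hx0]
    have := Real.exp_one_lt_d9
    linarith
  have hll : 0 < Real.log (Real.log x) := Real.log_pos hlog1
  have hll2 : Real.log (Real.log x) ≤ Real.log x := by
    have := Real.log_le_sub_one_of_pos (by linarith : 0 < Real.log x)
    linarith
  rw [le_div_iff₀ hll]
  rcases lt_or_ge (Nat.log 2 x) 64 with hw | hw
  · -- small x
    have hx2 : x < 2 ^ 64 := by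
      have := Nat.lt_pow_succ_log_self (b := 2) (by norm_num) x
      exact this.trans_le (Nat.pow_le_pow_right (by norm_num) hw)
    have hcard : (A.card : ℝ) ≤ 2 * x := by
      have e1 : A.card ≤ x + 1 := by
        have : A ⊆ Finset.range (x + 1) := fun n hn => Finset.mem_range.2 (by
          have := (hA n hn).1
          omega)
        calc A.card ≤ (Finset.range (x + 1)).card := Finset.card_le_card this
          _ = x + 1 := Finset.card_range _
      have e2 : (A.card : ℝ) ≤ x + 1 := by exact_mod_cast e1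
      linarith
    have hlogx : Real.log x ≤ 45 := by
      have e1 : (x : ℝ) ≤ 2 ^ 64 := by exact_mod_cast hx2.le
      calc Real.log x ≤ Real.log (2 ^ 64) := Real.log_le_log hx0 e1
        _ = 64 * Real.log 2 := by rw [Real.log_pow]; norm_num
        _ ≤ 45 := by
            have := Real.log_two_lt_d9
            linarith
    have hll4 : Real.log (Real.log x) ≤ 32 := by
      have := Real.log_le_sub_one_of_pos (by linarith : 0 < Real.log x)
      have e : Real.log (Real.log x) ≤ Real.log 45 := Real.log_le_log (by linarith) hlogx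
      have e2 : Real.log 45 ≤ Real.log (2 ^ 6) := Real.log_le_log (by norm_num) (by norm_num)
      have e3 : Real.log (2 ^ 6) = 6 * Real.log 2 := by rw [Real.log_pow]; norm_num
      have := Real.log_two_lt_d9
      linarith
    calc (A.card : ℝ) * Real.log (Real.log x) ≤ (2 * x) * 32 :=
          mul_le_mul hcard hll4 hll.le (by linarith)
      _ = 64 * x := by ring
  · -- large x
    set w := Nat.log 2 x with hwdef
    set Y := Nat.log 16 (w / 4) with hY
    have hw4 : 16 ≤ w / 4 := by omega
    have hY1 : 1 ≤ Y := Nat.log_pos (by norm_num) hw4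
    have hQ : QQ (FF Y) ≤ w / 4 := (h2 Y).trans (Nat.pow_log_le_self 16 (by omega))
    have h2w : 2 ^ w ≤ x := Nat.pow_log_le_self 2 (by omega)
    have hbound := h1 Y x A hY1 (fun n hn => ⟨(hA n hn).1, (hA n hn).2.1,
      (hA n hn).2.2 (FF Y) fun p hp => OP_FF hp⟩)
    have hsq0 : 0 ≤ Real.sqrt x := Real.sqrt_nonneg _
    have hsq1 : 1 ≤ Real.sqrt x := Real.one_le_sqrt.2 (by linarith)
    have hp1 : (2 : ℝ) ^ (2 * QQ (FF Y)) ≤ Real.sqrt x := by
      have e1 : 2 ^ (2 * QQ (FF Y)) * 2 ^ (2 * QQ (FF Y)) ≤ x := by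
        rw [← pow_add]
        exact (Nat.pow_le_pow_right (by norm_num) (by omega)).trans h2w
      refine Real.le_sqrt_of_sq_le ?_
      rw [pow_two]
      exact_mod_cast e1
    have hwr : (w : ℝ) ≤ 2 * Real.log x := by
      have e1 : ((2 : ℝ) ^ w) ≤ x := by exact_mod_cast h2w
      have e2 : (w : ℝ) * Real.log 2 ≤ Real.log x := by
        rw [← Real.log_pow]
        exact Real.log_le_log (by positivity) e1
      have e3 := Real.log_two_gt_d9
      have e4 : (0 : ℝ) ≤ w := Nat.cast_nonneg w
      nlinarith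
    have hw64 : (64 : ℝ) ≤ w := by exact_mod_cast hw
    have hQr : (QQ (FF Y) : ℝ) ≤ w / 4 := by
      have e1 : (QQ (FF Y) : ℝ) ≤ ((w / 4 : ℕ) : ℝ) := by exact_mod_cast hQ
      exact e1.trans Nat.cast_div_le
    -- the term `x / Y`
    have hYr : (1 : ℝ) ≤ Y := by exact_mod_cast hY1
    have hlogY : Real.log (Real.log x) ≤ 24 * Y := by
      have e1 : x < 2 ^ (w + 1) := Nat.lt_pow_succ_log_self (by norm_num) x
      have e2 : (x : ℝ) < 2 ^ (w + 1) := by exact_mod_cast e1
      have e3 : Real.log x ≤ w + 1 := by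
        calc Real.log x ≤ Real.log (2 ^ (w + 1)) := Real.log_le_log hx0 e2.le
          _ = (w + 1) * Real.log 2 := by rw [Real.log_pow]; push_cast; ring
          _ ≤ (w + 1) * 1 := by
              have := Real.log_two_lt_d9
              refine mul_le_mul_of_nonneg_left (by linarith) (by linarith)
          _ = w + 1 := by ring
      have e4 : w / 4 < 16 ^ (Y + 1) := Nat.lt_pow_succ_log_self (by norm_num) _
      have e5 : (w : ℝ) / 4 ≤ 16 ^ (Y + 1) := by
        have e6 : w < 4 * 16 ^ (Y + 1) := by omega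
        have e7 : (w : ℝ) < 4 * 16 ^ (Y + 1) := by exact_mod_cast e6
        linarith
      have e8 : Real.log ((w : ℝ) / 4) ≤ (Y + 1) * Real.log 16 := by
        calc Real.log ((w : ℝ) / 4) ≤ Real.log (16 ^ (Y + 1)) :=
              Real.log_le_log (by linarith) e5
          _ = (Y + 1) * Real.log 16 := by rw [Real.log_pow]; push_cast; ring
      have e9 : Real.log 16 = 4 * Real.log 2 := by
        rw [show (16 : ℝ) = 2 ^ 4 by norm_num, Real.log_pow]
        norm_num
      have e10 : Real.log (Real.log x) ≤ 3 * Real.log ((w : ℝ) / 4) := by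
        calc Real.log (Real.log x) ≤ Real.log (((w : ℝ) / 4) ^ 3) := by
              refine Real.log_le_log (by linarith) (e3.trans ?_)
              nlinarith [sq_nonneg (w : ℝ), mul_self_nonneg ((w : ℝ) - 64),
                mul_nonneg (sub_nonneg.2 hw64) (sq_nonneg (w : ℝ))]
          _ = 3 * Real.log ((w : ℝ) / 4) := by rw [Real.log_pow]; norm_num
      have e11 := Real.log_two_lt_d9
      have e12 : (Y + 1 : ℝ) * Real.log 16 ≤ 8 * Y := by
        rw [e9]
        nlinarith
      linarith
    have g1 : (x : ℝ) / Y * Real.log (Real.log x) ≤ 24 * x := by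
      rw [div_mul_eq_mul_div, div_le_iff₀ (by linarith)]
      nlinarith
    -- the other terms
    have g2 : (QQ (FF Y) * Real.sqrt x + 2 ^ (2 * QQ (FF Y)) + 1) * Real.log (Real.log x) ≤
        32 * x := by
      have a1 : (QQ (FF Y) * Real.sqrt x + 2 ^ (2 * QQ (FF Y)) + 1 : ℝ) ≤
          2 * Real.log x * Real.sqrt x := by
        have b1 : (QQ (FF Y) * Real.sqrt x : ℝ) ≤ w / 4 * Real.sqrt x :=
          mul_le_mul_of_nonneg_right hQr hsq0
        have b2 : (w / 4 + 2) * Real.sqrt x ≤ 2 * Real.log x * Real.sqrt x :=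
          mul_le_mul_of_nonneg_right (by linarith) hsq0
        linarith
      have a2 : 2 * Real.log x * Real.sqrt x * Real.log (Real.log x) ≤
          2 * Real.log x * Real.sqrt x * Real.log x :=
        mul_le_mul_of_nonneg_left hll2 (by
          have : 0 ≤ Real.log x := by linarith
          positivity)
      have a3 : 2 * Real.log x * Real.sqrt x * Real.log x ≤ 32 * x := by
        have c1 := log_sq_le x (by linarith)
        have c2 : Real.sqrt x * Real.sqrt x = x := Real.mul_self_sqrt hx0.le
        nlinarith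
      exact ((mul_le_mul_of_nonneg_right a1 hll.le).trans a2).trans a3
    calc (A.card : ℝ) * Real.log (Real.log x)
        ≤ ((x : ℝ) / Y + QQ (FF Y) * Real.sqrt x + 2 ^ (2 * QQ (FF Y)) + 1) *
          Real.log (Real.log x) := mul_le_mul_of_nonneg_right hbound hll.le
      _ = (x : ℝ) / Y * Real.log (Real.log x) +
          (QQ (FF Y) * Real.sqrt x + 2 ^ (2 * QQ (FF Y)) + 1) * Real.log (Real.log x) := by ring
      _ ≤ 24 * x + 32 * x := add_le_add g1 g2
      _ ≤ 64 * x := by linarith

end Pool.Agent.H58.SQ.TC
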