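import Pool.Agent.H99.SQ.Defs

set_option autoImplicit false

namespace Pool.Agent.H58.SQ.TD

open Finset Filter Topology Pool.Agent.H99.SQ

theorem ncard_le_eq (P : ℕ → Prop) (x : ℕ) [DecidablePred P] :
    ({n : ℕ | n ≤ x ∧ P n} : Set ℕ).ncard = ((range (x + 1)).filter P).card := by
  have e : {n : ℕ | n ≤ x ∧ P n} = (((range (x + 1)).filter P : Finset ℕ) : Set ℕ) := by
    ext n
    simp only [Set.mem_ofPred_eq, Finset.coe_filter, Finset.mem_range, Nat.lt_succ_iff]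
  rw [e, Set.ncard_coe_finset]

theorem QQ_pos (Y : ℕ) : 0 < QQ (FF Y) := by
  refine Finset.prod_pos fun p hp => ?_
  simp only [FF, Finset.mem_filter] at hp
  exact pow_pos hp.2.1.pos 2

theorem approx (h2 : T_SEM) (h3 : T_BB) (h4 : T_PD) (Y : ℕ) (hY : 1 ≤ Y) :
    ∃ d K : ℝ, 0 ≤ K ∧ ∀ x : ℕ, 1 ≤ x →
      |(({n : ℕ | n ≤ x ∧ EE n} : Set ℕ).ncard : ℝ) / x - d| ≤ 1 / Y + K / Real.sqrt x := by
  classical
  obtain ⟨_, s2, _, s4⟩ := h2
  have hQ := QQ_pos Y
  have hper : ∀ n, (Odd (n + 2 * QQ (FF Y)) ∧ Cov (FF Y) (n + 2 * QQ (FF Y))) ↔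
      (Odd n ∧ Cov (FF Y) n) := by
    intro n
    have e1 : Odd (n + 2 * QQ (FF Y)) ↔ Odd n := by
      rw [Nat.odd_add]
      exact ⟨fun h => h.2 (even_two_mul _), fun h => ⟨fun _ => even_two_mul _, fun _ => h⟩⟩
    have e2 : Cov (FF Y) (n + 2 * QQ (FF Y)) ↔ Cov (FF Y) n := by
      refine forall_congr' fun l => exists_congr fun p => and_congr_right fun hp => ?_
      refine s2 p _ _ l ?_
      have hd : p ^ 2 ∣ QQ (FF Y) := Finset.dvd_prod_of_mem (fun p => p ^ 2) hp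
      have e3 : n + 2 * QQ (FF Y) ≡ n + 0 [MOD p ^ 2] :=
        Nat.ModEq.add_left n ((Nat.modEq_zero_iff_dvd).2 (hd.mul_left 2))
      simpa using e3
    rw [e1, e2]
  obtain ⟨d, hd⟩ := h4 (2 * QQ (FF Y)) (fun n => Odd n ∧ Cov (FF Y) n) (by omega) hper
  refine ⟨d, QQ (FF Y) + 2 ^ (2 * QQ (FF Y)) + 2 * QQ (FF Y) + 4, by positivity, ?_⟩
  intro x hx
  have hxr : (1 : ℝ) ≤ x := by exact_mod_cast hx
  have hx0 : (0 : ℝ) < x := by linarith
  have hsq0 : 0 < Real.sqrt x := Real.sqrt_pos.2 hx0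
  have hsq1 : 1 ≤ Real.sqrt x := Real.one_le_sqrt.2 hxr
  have hd' := hd x
  rw [ncard_le_eq] at hd' ⊢
  -- split the exceptional numbers
  set S := (range (x + 1)).filter EE with hS
  set S1 := S.filter (fun n => Cov (FF Y) n) with hS1
  set S2 := S.filter (fun n => ¬ Cov (FF Y) n) with hS2
  set T := (range (x + 1)).filter (fun n => Odd n ∧ Cov (FF Y) n) with hT
  have hcard : S1.card + S2.card = S.card := Finset.card_filter_add_card_filter_not _
  have hb2 : (S2.card : ℝ) ≤ x / Y + QQ (FF Y) * Real.sqrt x + 2 ^ (2 * QQ (FF Y)) + 1 := by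
    refine h3 Y x S2 hY ?_
    intro n hn
    rw [hS2, Finset.mem_filter, hS, Finset.mem_filter, Finset.mem_range] at hn
    exact ⟨by omega, hn.1.2, hn.2⟩
  have hle1 : S1.card ≤ T.card := by
    refine Finset.card_le_card fun n hn => ?_
    rw [hS1, Finset.mem_filter, hS, Finset.mem_filter] at hn
    rw [hT, Finset.mem_filter]
    exact ⟨hn.1.1, hn.1.2.1, hn.2⟩
  have hle2 : T.card ≤ S1.card + 2 := by
    have hsub : T ⊆ S1 ∪ {0, 1} := by
      intro n hn
      rw [hT, Finset.mem_filter] at hn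
      rw [Finset.mem_union]
      by_cases h1 : 1 < n
      · left
        rw [hS1, Finset.mem_filter, hS, Finset.mem_filter]
        refine ⟨⟨hn.1, hn.2.1, h1, ?_⟩, hn.2.2⟩
        have : RR n = ∅ := by
          refine Set.eq_empty_iff_forall_notMem.2 fun l => ?_
          obtain ⟨p, hp, hk⟩ := hn.2.2 l
          simp only [FF, Finset.mem_filter] at hp
          exact s4 n l p hp.2 hk
        unfold rep
        rw [this, Set.ncard_empty]
      · right
        simp only [Finset.mem_insert, Finset.mem_singleton]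
        omega
    calc T.card ≤ (S1 ∪ {0, 1}).card := Finset.card_le_card hsub
      _ ≤ S1.card + ({0, 1} : Finset ℕ).card := Finset.card_union_le _ _
      _ ≤ S1.card + 2 := Nat.add_le_add_left Finset.card_le_two _
  have r1 : (S1.card : ℝ) + S2.card = S.card := by exact_mod_cast hcard
  have r2 : (S1.card : ℝ) ≤ T.card := by exact_mod_cast hle1
  have r3 : (T.card : ℝ) ≤ S1.card + 2 := by exact_mod_cast hle2
  have r4 : (0 : ℝ) ≤ S2.card := Nat.cast_nonneg _
  have hd2 := abs_le.1 hd'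
  push_cast at hd2
  have hQr : (0 : ℝ) ≤ QQ (FF Y) := Nat.cast_nonneg _
  have hpw : (0 : ℝ) ≤ 2 ^ (2 * QQ (FF Y)) := by positivity
  have hYr : (0 : ℝ) < Y := by exact_mod_cast hY
  have hmain : |(S.card : ℝ) - d * x| ≤ x / Y + (QQ (FF Y) + 2 ^ (2 * QQ (FF Y)) +
      2 * QQ (FF Y) + 4) * Real.sqrt x := by
    have k1 : (2 ^ (2 * QQ (FF Y)) : ℝ) ≤ 2 ^ (2 * QQ (FF Y)) * Real.sqrt x :=
      le_mul_of_one_le_right hpw hsq1
    have k2 : (QQ (FF Y) : ℝ) ≤ QQ (FF Y) * Real.sqrt x := le_mul_of_one_le_right hQr hsq1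
    have k3 : (0 : ℝ) ≤ x / Y := by positivity
    have k4 : (0 : ℝ) ≤ QQ (FF Y) * Real.sqrt x := by positivity
    rw [abs_le]
    constructor
    · nlinarith
    · nlinarith
  have e5 : (S.card : ℝ) / x - d = ((S.card : ℝ) - d * x) / x := by field_simp
  rw [e5, abs_div, abs_of_pos hx0, div_le_iff₀ hx0]
  refine hmain.trans (le_of_eq ?_)
  have e6 : Real.sqrt x * Real.sqrt x = x := Real.mul_self_sqrt hx0.le
  have e7 : (x : ℝ) / Real.sqrt x = Real.sqrt x := by
    rw [div_eq_iff hsq0.ne', e6]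
  generalize (QQ (FF Y) + 2 ^ (2 * QQ (FF Y)) + 2 * QQ (FF Y) + 4 : ℝ) = K
  have e8 : K / Real.sqrt x * x = K * (x / Real.sqrt x) := by ring
  rw [add_mul (1 / (Y : ℝ)), e8, e7]
  ring

theorem pf_TD (h1 : T_ORD) (h2 : T_SEM) (h3 : T_BB) (h4 : T_PD) : T_TD := by
  have hcau : CauchySeq (fun x : ℕ => (({n : ℕ | n ≤ x ∧ EE n} : Set ℕ).ncard : ℝ) / x) := by
    rw [Metric.cauchySeq_iff]
    intro ε hε
    obtain ⟨Y, hY⟩ := exists_nat_gt (4 / ε)
    have hY0 : (0 : ℝ) < Y := lt_trans (by positivity) hY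
    have hY1 : 1 ≤ Y := by exact_mod_cast hY0
    obtain ⟨d, K, hK, hd⟩ := approx h2 h3 h4 Y hY1
    have hY4 : 1 / (Y : ℝ) < ε / 4 := by
      rw [div_lt_iff₀ hY0]
      rw [div_lt_iff₀ hε] at hY
      linarith
    have hlim : Tendsto (fun x : ℕ => K / Real.sqrt x) atTop (𝓝 0) :=
      Tendsto.div_atTop tendsto_const_nhds
        (Real.tendsto_sqrt_atTop.comp tendsto_natCast_atTop_atTop)
    obtain ⟨N, hN⟩ := Filter.eventually_atTop.1 (hlim.eventually (gt_mem_nhds (by positivity :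
      (0 : ℝ) < ε / 4)))
    refine ⟨max N 1, fun x hx x' hx' => ?_⟩
    have a1 := hd x ((le_max_right _ _).trans hx)
    have a2 := hd x' ((le_max_right _ _).trans hx')
    have b1 := hN x ((le_max_left _ _).trans hx)
    have b2 := hN x' ((le_max_left _ _).trans hx')
    rw [Real.dist_eq]
    have c1 := abs_le.1 a1
    have c2 := abs_le.1 a2
    rw [abs_lt]
    constructor
    · linarith
    · linarith
  exact cauchySeq_tendsto_of_complete hcau

end Pool.Agent.H58.SQ.TD
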